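import Pool.Agent.Helper482.NA.M_b7

set_option autoImplicit false

namespace Pool.Agent.Results.MP_52c2ea_lc.NullAdditiveProduct

open MeasureTheory
open scoped Pointwise

/-- A set `A ⊆ ℝ` is null-additive if `A + N` is Lebesgue null for every Lebesgue null `N ⊆ ℝ`. -/
def NullAdditiveLine (A : Set ℝ) : Prop :=
  ∀ N : Set ℝ, volume N = 0 → volume (A + N) = 0

/-- A set `A ⊆ ℝ²` is null-additive if `A + N` is null for every null `N ⊆ ℝ²`
(two-dimensional Lebesgue measure). -/
def NullAdditivePlane (A : Set (ℝ × ℝ)) : Prop :=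
  ∀ N : Set (ℝ × ℝ), volume N = 0 → volume (A + N) = 0

/-- In ZFC: if `X, Y ⊆ ℝ` are null-additive, then `X × Y ⊆ ℝ²` is null-additive. -/
theorem result (X Y : Set ℝ) (hX : NullAdditiveLine X) (hY : NullAdditiveLine Y) :
    NullAdditivePlane (X ×ˢ Y) :=
  Pool.Agent.Helper482.NA.M_b7.main X Y hX hY

end Pool.Agent.Results.MP_52c2ea_lc.NullAdditiveProduct
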